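import Pool.Agent.H676R3.TMult4

set_option autoImplicit false
open Pool.Agent.H676R3.Tens

namespace Pool.Agent.Results.MP_dca5ce_ag.OneDim

universe u

/-- A one-dimensional Noetherian local domain `R` has a (Hilbert-Samuel) multiplicity `μ ≥ 1`, and
every `e ≥ μ` is a test exponent for `R`. This answers Q1 positively in dimension one and proves
Q2(b) for `d = 1`, where `d + μ - 1 = μ`. -/
theorem result (R : Type u) [CommRing R] [IsDomain R] [IsLocalRing R] [IsNoetherianRing R]
    (hdim : ringKrullDim R = 1) :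
    ∃ μ : ℕ, 1 ≤ μ ∧ IsMultiplicity R 1 μ ∧ ∀ e, μ ≤ e → TestExponent R e :=
  oneDim hdim

end Pool.Agent.Results.MP_dca5ce_ag.OneDim
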