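import Pool.Agent.H676R3.TFin

set_option autoImplicit false
open Pool.Agent.H676R3.Tens

namespace Pool.Agent.Results.MP_dca5ce_ag.Sharp

universe u

/-- For an infinite field `k` and `μ ≥ 2` the ring `R = k + t ^ μ k[[t]]` is a one-dimensional
Noetherian local domain of multiplicity `μ`, and its test exponents are exactly the integers `≥ μ`.
For `μ ≥ 3` this disproves Q2(a), and it shows that the exponent `d + μ - 1` of Q2(b) cannot be
lowered for `d = 1`. -/
theorem result (k : Type u) [Field k] [Infinite k] (μ : ℕ) (hμ : 2 ≤ μ) :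
    IsDomain (Rmu k μ) ∧ IsNoetherianRing (Rmu k μ) ∧ IsLocalRing (Rmu k μ) ∧
      ringKrullDim (Rmu k μ) = 1 ∧ IsMultiplicity (Rmu k μ) 1 μ ∧
      ∀ e : ℕ, TestExponent (Rmu k μ) e ↔ μ ≤ e := by
  obtain ⟨r, rfl⟩ : ∃ r, μ = r + 1 := ⟨μ - 1, by omega⟩
  have hr : 0 < r := by omega
  exact ⟨inferInstance, inferInstance, inferInstance, ringKrullDim_Rmu (Nat.succ_pos r),
    isMultiplicity_of_length tmu_ne_zero (max_sq (Nat.succ_pos r)) (length_quot_tmu_eq hr),
    testExponent_iff hr⟩

end Pool.Agent.Results.MP_dca5ce_ag.Sharp
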